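import Pool.Agent.Q253.LQ.Stm

set_option autoImplicit false

/-!
# Project LM: moments of a prime sum and rational relations of a given length between the ordinates

Definitions and jobs.
-/

namespace Pool.Agent.Q253.LM

open MeasureTheory Filter Topology Set
open Pool.Agent.Q253.LQ (I0)

/-- the signed frequency `± g i` -/
noncomputable def fr {ι : Type} (g : ι → ℝ) (j : ι × Bool) : ℝ := if j.2 then g j.1 else -g j.1

open Classical in
/-- each index occurs as often with `+` as with `-` -/
def Sym {ι : Type} {k : ℕ} (t : Fin k → ι × Bool) : Prop :=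
  ∀ i, (Finset.univ.filter fun l => t l = (i, true)).card = (Finset.univ.filter fun l => t l = (i, false)).card

open Classical in
/-- the `k`-th moment -/
noncomputable def T {ι : Type} (g c : ι → ℝ) (k : ℕ) : ℝ :=
  ∑' t : Fin k → ι × Bool, if ∑ l, fr g (t l) = 0 then ∏ l, c (t l).1 else 0

open Classical in
/-- the trivial part of the `k`-th moment -/
noncomputable def R {ι : Type} (c : ι → ℝ) (k : ℕ) : ℝ :=
  ∑' t : Fin k → ι × Bool, if Sym t then ∏ l, c (t l).1 else 0

/-- no nontrivial relation of length at most `k` and of the parity of `k` -/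
def NoRel {ι : Type} (g : ι → ℝ) (k : ℕ) : Prop :=
  ∀ n : ι →₀ ℤ, ∑ i ∈ n.support, (n i : ℝ) * g i = 0 → ∑ i ∈ n.support, |n i| ≤ (k : ℤ) →
    Even ((k : ℤ) - ∑ i ∈ n.support, |n i|) → n = 0

/-- LM-MN.  The mean value of a power.  Proof.  Put `J = ι × Bool`, `a_j = fr g j`, `w_j = c j.1`; then
`f(u) = ∑_i 2 c_i cos(g_i u) = ∑_{j : J} w_j cos(a_j u)`, more precisely `= ∑_j w_j e^(i a_j u)` (the imaginary part is zero), so
`f(u)^k = ∑_{t : Fin k → J} (∏ w_{t l}) e^(i (∑ a_{t l}) u)`, absolutely summable (product of `k` absolutely convergent series,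
induction on `k` with `Fin.consEquiv`/`Fin.snocEquiv` and `Summable.mul_of_nonneg`, `tsum_mul_tsum_of_summable_norm`), and the
mean value of `e^(iau)` is `1` for `a = 0` and `0` otherwise: the theorem `mean_series` in `Pool/Agent/Q151/LQ/MV.lean`
(`ι` is countable, as `c` is summable and positive).  The term `r`: `(f + r)^k - f^k` is bounded, measurable and tends to `0`, so
its mean tends to `0` (`cesaro` in the same file). -/
def S_MN : Prop := ∀ (ι : Type) (g c : ι → ℝ) (r : ℝ → ℝ) (k : ℕ), (∀ i, 0 < c i) → Summable c → Measurable r →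
  (∃ B : ℝ, ∀ u, |r u| ≤ B) → Tendsto r atTop (𝓝 0) →
  Tendsto (fun U : ℝ => (1 / U) * ∫ u in (0 : ℝ)..U, (∑' i, 2 * c i * Real.cos (g i * u) + r u) ^ k) atTop (𝓝 (T g c k))

/-- LM-TR.  Comparison.  Proof.  `Sym t` implies `∑ fr g (t l) = 0` (group the sum by the index: `∑_l fr g (t l) =
∑_i (#{t l = (i,+)} - #{t l = (i,-)}) g i` over the finite set of the `i` that occur).  All terms are `≥ 0` and summable
(`k`-fold product of a summable family), so `R ≤ T`, and `T = R` iff there is no tuple `t` with `∑ fr g (t l) = 0` and not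
`Sym t` (the terms are positive).  Given such a `t`, `n_i = #{l | t l = (i,+)} - #{l | t l = (i,-)}` is a nonzero relation with
`∑ |n_i| ≤ k` and `≡ k mod 2` (as `|a-b| ≡ a+b mod 2`, `∑_i (#(i,+) + #(i,-)) = k`).  Conversely, from `n ≠ 0` form a tuple with
`|n_i|` entries `(i, sign n_i)` and `(k - ∑|n_i|)/2` pairs `(i₀, +), (i₀, -)` for one `i₀` in the support; it is not
symmetric, since `#(i,+) - #(i,-) = n_i`. -/
def S_TR : Prop := ∀ (ι : Type) (g c : ι → ℝ) (k : ℕ), (∀ i, 0 < c i) → Summable c →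
  R c k ≤ T g c k ∧ (T g c k = R c k ↔ NoRel g k)

/-- LM-GF.  The generating function of the trivial parts; also `R c k = 0` for odd `k` and `R c 0 = 1`.  Proof.  For odd `k`
there is no symmetric tuple.  For the sum: `ι` is countable; choose positive reals `g_i` linearly independent over `ℚ`
(an injection of `ι` into a basis of `ℝ` over `ℚ`, absolute values; or logarithms of primes).  Then `NoRel g k` for all
`k`, so `T g c k = R c k` (`S_TR`), and by `S_MN` with `r = 0` the means of `f^k` tend to `R c k`.  As `|f| ≤ 2 ∑ c_i`, the mean of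
`exp(lam f) = ∑_k lam^k f^k/k!` tends to `∑_k lam^k/k! R c k` (dominated convergence for series,
`tendsto_tsum_of_dominated_convergence`, bound `(lam 2∑c)^k/k!`; the integral of the series is the series of the integrals,
`intervalIntegral.hasSum_integral_of_dominated_convergence`).  On the other hand it tends to the product by
`Pool.Agent.Q151.LQ.t_MV` (`κ = 0`, `r = 0`), proved in `Pool/Agent/Q151/LQ/MV.lean`. -/
def S_GF : Prop := ∀ (ι : Type) (c : ι → ℝ), (∀ i, 0 < c i) → Summable c →
  R c 0 = 1 ∧ (∀ k, Odd k → R c k = 0) ∧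
  ∀ lam : ℝ, 0 < lam → HasSum (fun k : ℕ => lam ^ k / (k.factorial : ℝ) * R c k)
    (∏' i, (I0 ((2 * lam * c i : ℝ) : ℂ)).re)

/-- LM-TC.  Taylor coefficients (pure calculus).  Proof.  `F` is even and the `a_k` with odd `k` vanish, so the series
represents `F` on `[-1/8, 1/8]`; hence `F` has the power series with the coefficients `a_k/k!` at `0`
(`HasFPowerSeriesOnBall`, e.g. `FormalMultilinearSeries.ofScalars` or `hasFPowerSeriesAt_iff`), and `iteratedDeriv k F 0 = a_k`
(`HasFPowerSeriesAt.factorial_smul`, or uniqueness of power series). -/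
def S_TC : Prop := ∀ (F : ℝ → ℝ) (a : ℕ → ℝ), F 0 = a 0 → (∀ x, F (-x) = F x) → (∀ k, Odd k → a k = 0) →
  (∀ x : ℝ, 0 < x → x ≤ 1 / 8 → HasSum (fun k : ℕ => x ^ k / (k.factorial : ℝ) * a k) (F x)) →
  ∀ k : ℕ, iteratedDeriv k F 0 = a k

/-- the positive ordinates, repeated with the multiplicity -/
abbrev IdxM (m : ℝ → ℕ) : Type := Σ γ : {γ : ℝ // 0 < γ}, Fin (m γ)

open Classical in
/-- LM-TT.  Both signs and multiplicities.  Proof.  Map `((γ, j), b)` to `± γ` (`fr`); the fibre over a real `x ≠ 0` has `m x`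
elements (`m` is even) and the fibre over `0` is empty, `m 0 = 0`.  So for tuples the fibre over `s : Fin k → ℝ` has `∏ m (s l)`
elements, and the summand depends only on the image.  (`tsum` over a sigma type/fibres; everything is nonnegative and summable.) -/
def S_TT : Prop := ∀ (m : ℝ → ℕ) (w : ℝ → ℝ) (k : ℕ), (∀ x, m (-x) = m x) → m 0 = 0 → (∀ x, w (-x) = w x) →
  (∀ x, 0 ≤ w x) → Summable (fun x : ℝ => (m x : ℝ) * w x) →
  T (fun i : IdxM m => (i.1 : ℝ)) (fun i : IdxM m => w (i.1 : ℝ)) k =
    ∑' s : Fin k → ℝ, if ∑ l, s l = 0 then ∏ l, (m (s l) : ℝ) * w (s l) else 0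

/-- LM-RL.  Relations with multiplicities.  Proof.  `k = 0`: both sides are true.  `k` odd: given a relation `n` on `IdxM m` of odd
length put `N γ = ∑_j n (γ, j)`; `∑ |N| ≤ ∑ |n|` with the same parity, so odd, so `N ≠ 0`; conversely put `n (γ, 0) = N γ`.
`k ≥ 2` even: if `m γ ≥ 2` then `n = e_(γ,0) - e_(γ,1)` is a relation of length `2`; if all `m γ ≤ 1` (for `γ > 0`) the two index
sets are in bijection. -/
def S_RL : Prop := ∀ (m : ℝ → ℕ) (k : ℕ),
  NoRel (fun i : IdxM m => (i.1 : ℝ)) k ↔
    (NoRel (fun γ : {γ : ℝ // 0 < γ ∧ m γ ≠ 0} => (γ : ℝ)) k ∧ (Even k → 2 ≤ k → ∀ γ : ℝ, 0 < γ → m γ ≤ 1))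

/-- LM-LI.  All levels together are linear independence.  Proof.  Clear denominators; `LinearIndependent ℚ g` iff `NoRel g k`
for all `k` (for `n` take `k = ∑ |n i|`). -/
def S_LI : Prop := ∀ (ι : Type) (g : ι → ℝ), LinearIndependent ℚ g ↔ ∀ k : ℕ, NoRel g k

end Pool.Agent.Q253.LM
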