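import Pool.Agent.Q253.LQ.F5
import Pool.Agent.Q253.LM.Stm

set_option autoImplicit false

/-! # Project LM: bounded even moments and GRH (the proof follows helper14's `Pool.Agent.Q14.LQ.t_LA`) -/

namespace Pool.Agent.Q253.LM

open MeasureTheory Filter Topology Set Complex
open DirichletCharacter (LFunction completedLFunction)
open Pool.Agent.Q253.LQ Pool.Agent.Q14.LQ

theorem LA_pos {q : ℕ} [NeZero q]
    (hp : ∀ σ : ℝ, 0 < σ → IntegrableOn (fun u => max (-EE q u) 0 * Real.exp (-(σ * u))) (Ioi 0)) : GRHq q := by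
  intro χ s hs1 hs2 h0
  have hc : Continuous (fun u => -EE q u) := (EE_cont q).neg
  have hm : ∀ σ : ℝ, 1 / 2 < σ → IntegrableOn (fun u => max (-(-EE q u)) 0 * Real.exp (-(σ * u))) (Ioi 0) := by
    intro σ hσ
    have hre : (-(((σ : ℝ) : ℂ) - 1 / 2)).re < 0 := by
      rw [Complex.neg_re, Complex.sub_re, Complex.ofReal_re]
      have : ((1 : ℂ) / 2).re = 1 / 2 := by norm_num
      rw [this]
      linarith
    have i1 := (integrableOn_exp_mul_complex_Ioi hre 0).const_mul (8 / 3 : ℂ)
    have i2 := (LT_intble (HB_be q) (z := (σ : ℂ)) (by rw [Complex.ofReal_re]; exact hσ)).const_mul (Nat.totient q : ℂ)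
    have i3 := (i2.sub i1).norm
    refine Integrable.mono' i3 ((((hc.neg).max continuous_const).mul (by fun_prop)).aestronglyMeasurable)
      (Eventually.of_forall fun u => ?_)
    rw [Real.norm_of_nonneg (mul_nonneg (le_max_right _ _) (Real.exp_pos _).le), neg_neg]
    have e1 : ((Nat.totient q : ℂ) * (ES (be q) u * cexp (-(σ : ℂ) * u)) -
        (8 / 3 : ℂ) * cexp (-((σ : ℂ) - 1 / 2) * u)) = ((EE q u * Real.exp (-(σ * u)) : ℝ) : ℂ) := by
      rw [Complex.ofReal_mul, EE_eq]
      have e1 : cexp (-((σ : ℂ) - 1 / 2) * u) = cexp ((u / 2 : ℝ) : ℂ) * cexp (-(σ : ℂ) * u) := by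
        rw [← Complex.exp_add]
        congr 1
        push_cast
        ring
      have e2 : ((Real.exp (-(σ * u)) : ℝ) : ℂ) = cexp (-(σ : ℂ) * u) := by
        rw [Complex.ofReal_exp]
        congr 1
        push_cast
        ring
      rw [e1, e2, Complex.ofReal_mul, Complex.ofReal_exp]
      push_cast
      ring
    simp only [Pi.sub_apply]
    rw [e1, Complex.norm_real, Real.norm_eq_abs, abs_mul, abs_of_pos (Real.exp_pos _)]
    refine mul_le_mul_of_nonneg_right ?_ (Real.exp_pos _).le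
    exact max_le (le_abs_self _) (abs_nonneg _)
  have hE : Differentiable ℂ (fun z => Ex q (1 / 2 + z)) :=
    (Ex_diff (q := q)).comp (by fun_prop : Differentiable ℂ (fun z : ℂ => 1 / 2 + z))
  have key := LA_abs (f := fun u => -EE q u) hc hp hm (E := fun z => Ex q (1 / 2 + z))
    (H := fun z => 8 / 3 * (z + 1 / 2) + (1 + z) *
      (∑ χ : DirichletCharacter ℂ q, logDeriv (LFunction χ) (1 / 2 + 1))) hE (by fun_prop)
    ⟨1, Finset.prod_ne_zero_iff.2 fun χ _ => Mx_ne' χ (by norm_num)⟩ (fun z hz => key_id hz) (s - 1 / 2) (by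
      rw [Complex.sub_re]
      have : ((1 : ℂ) / 2).re = 1 / 2 := by norm_num
      rw [this]
      linarith)
  refine key ?_
  have hs : s ≠ 1 := by
    rintro rfl
    simp at hs2
  have e : 1 / 2 + (s - 1 / 2) = s := by ring
  rw [e]
  exact Finset.prod_eq_zero (Finset.mem_univ χ) ((Mx_ne χ hs).2 h0)


/-- a bounded even moment implies the Riemann hypothesis modulo `q` -/
theorem grh_of_moment {q : ℕ} [NeZero q] {k : ℕ} (hk : Even k) (hk0 : k ≠ 0)
    (h : ∃ C : ℝ, ∀ᶠ U : ℝ in atTop, (1 / U) * ∫ u in (0 : ℝ)..U, (-EE q u) ^ k ≤ C) : GRHq q := by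
  obtain ⟨C, hC⟩ := h
  have hc : Continuous (fun u => -EE q u) := (EE_cont q).neg
  refine LA_pos fun σ hσ => ?_
  refine int_of_bound (hc.max continuous_const) (fun u => le_max_right _ _) (C := C + 1) ?_ hσ
  filter_upwards [hC, eventually_gt_atTop 0] with U hU hU0
  have h1 : ∀ u : ℝ, max (-EE q u) 0 ≤ (-EE q u) ^ k + 1 := by
    intro u
    set x := -EE q u with hx
    have h2 : 0 ≤ x ^ k := hk.pow_nonneg x
    rcases le_total x 1 with h | h
    · exact max_le (by linarith) (by linarith)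
    · refine max_le ?_ (by linarith)
      have h3 : x ^ 1 ≤ x ^ k := pow_le_pow_right₀ h (Nat.one_le_iff_ne_zero.2 hk0)
      rw [pow_one] at h3
      linarith
  have c1 : Continuous (fun u => max (-EE q u) 0) := hc.max continuous_const
  have c2 : Continuous (fun u => (-EE q u) ^ k + 1) := (hc.pow k).add continuous_const
  have h2 : ∫ u in (0 : ℝ)..U, max (-EE q u) 0 ≤ ∫ u in (0 : ℝ)..U, ((-EE q u) ^ k + 1) :=
    intervalIntegral.integral_mono_on hU0.le (c1.intervalIntegrable _ _) (c2.intervalIntegrable _ _) fun u _ => h1 u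
  have h3 : ∫ u in (0 : ℝ)..U, ((-EE q u) ^ k + 1) = (∫ u in (0 : ℝ)..U, (-EE q u) ^ k) + U := by
    have c3 : Continuous (fun u => (-EE q u) ^ k) := hc.pow k
    have c4 : Continuous (fun _ : ℝ => (1 : ℝ)) := continuous_const
    rw [intervalIntegral.integral_add (c3.intervalIntegrable _ _) (c4.intervalIntegrable _ _),
      intervalIntegral.integral_const, smul_eq_mul, mul_one, sub_zero]
  rw [h3] at h2
  rw [one_div, inv_mul_le_iff₀ hU0] at hU
  linarith

end Pool.Agent.Q253.LM
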