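import Pool.Agent.Q253.LM.F1
import Pool.Agent.Y21.FW.Zeros

set_option autoImplicit false

/-! # Project LM: the limits of the moments -/

namespace Pool.Agent.Q253.LM

open MeasureTheory Filter Topology Set Complex
open DirichletCharacter (LFunction completedLFunction)
open Pool.Agent.Q253.LQ

/-- the `k`-th moment of `-E` -/
noncomputable def MK (q k : ℕ) (U : ℝ) : ℝ := (1 / U) * ∫ u in (0 : ℝ)..U, (-EE q u) ^ k

variable {q : ℕ} [NeZero q]

theorem lim (hMN : S_MN) (hG : GRHq q) (h0 : mt q 0 = 0) (k : ℕ) :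
    Tendsto (MK q k) atTop (𝓝 (T (gi : Idx q → ℝ) ci k)) := by
  obtain ⟨r, hrm, hB, hr0, hr⟩ := rem hG
  have h1 := hMN (Idx q) gi ci r k ci_pos (ci_sm hG) hrm hB hr0
  refine h1.congr' ?_
  filter_upwards [eventually_ge_atTop 0] with U hU
  unfold MK
  congr 1
  refine intervalIntegral.integral_congr fun u hu => ?_
  rw [uIcc_of_le hU] at hu
  have h2 := hr u hu.1
  rw [h0] at h2
  unfold AP at h2
  congr 1
  rw [h2]
  push_cast
  ring

lemma I0_neg (w : ℂ) : I0 (-w) = I0 w := by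
  unfold I0
  refine tsum_congr fun k => ?_
  rw [neg_div, Even.neg_pow ⟨k, by ring⟩]

lemma I0_zero : I0 0 = 1 := by
  unfold I0
  rw [tsum_eq_single 0]
  · simp
  · intro k hk
    simp [hk]

lemma Rq_neg (lam : ℝ) : Rq q (-lam) = Rq q lam := by
  unfold Rq
  congr 3
  have e : (fun t : ℂ => Hq q t * Complex.log (I0 (4 * ((-lam : ℝ) : ℂ) / t))) =
      fun t : ℂ => Hq q t * Complex.log (I0 (4 * (lam : ℂ) / t)) := by
    funext t
    have : 4 * ((-lam : ℝ) : ℂ) / t = -(4 * (lam : ℂ) / t) := by push_cast; ring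
    rw [this, I0_neg]
  rw [e]

lemma Rq_zero : Rq q 0 = 1 := by
  unfold Rq
  have e : (fun t : ℂ => Hq q t * Complex.log (I0 (4 * ((0 : ℝ) : ℂ) / t))) = fun _ => 0 := by
    funext t
    rw [Complex.ofReal_zero, mul_zero, zero_div, I0_zero, Complex.log_one, mul_zero]
  have e2 : (∮ t in C(0, 1 / 2), Hq q t * Complex.log (I0 (4 * ((0 : ℝ) : ℂ) / t))) = 0 := by
    rw [show (∮ t in C(0, 1 / 2), Hq q t * Complex.log (I0 (4 * ((0 : ℝ) : ℂ) / t))) =
      ∮ t in C(0, 1 / 2), (fun t : ℂ => Hq q t * Complex.log (I0 (4 * ((0 : ℝ) : ℂ) / t))) t from rfl, e]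
    simp [circleIntegral]
  rw [e2, mul_zero, Complex.zero_re, Real.exp_zero]

/-- the trivial parts of the moments are the derivatives of `R` at `0` -/
theorem Rder (hGF : S_GF) (hTC : S_TC) (hG : GRHq q) (h0 : mt q 0 = 0) (k : ℕ) :
    iteratedDeriv k (Rq q) 0 = R (ci : Idx q → ℝ) k := by
  obtain ⟨g0, g1, g2⟩ := hGF (Idx q) ci ci_pos (ci_sm hG)
  refine hTC (Rq q) (R (ci : Idx q → ℝ)) ?_ Rq_neg g1 (fun x hx hx1 => ?_) k
  · rw [Rq_zero, g0]
  · rw [(Rq_le hG hx hx1).2.2 h0]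
    exact g2 x hx

/-- GRH is the boundedness of an even moment -/
theorem grh_iff_k (hMN : S_MN) (h0 : mt q 0 = 0) {k : ℕ} (hk : Even k) (hk0 : k ≠ 0) :
    GRHq q ↔ ∃ C : ℝ, ∀ᶠ U : ℝ in atTop, MK q k U ≤ C := by
  constructor
  · intro hG
    refine ⟨T (gi : Idx q → ℝ) ci k + 1, ?_⟩
    filter_upwards [(lim hMN hG h0 k).eventually (gt_mem_nhds (lt_add_one _))] with U hU using hU.le
  · intro h
    exact grh_of_moment hk hk0 h

/-- one level -/
theorem level (hMN : S_MN) (hTR : S_TR) (hGF : S_GF) (hTC : S_TC) (hG : GRHq q) (h0 : mt q 0 = 0) (k : ℕ) :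
    iteratedDeriv k (Rq q) 0 ≤ T (gi : Idx q → ℝ) ci k ∧
    (T (gi : Idx q → ℝ) ci k = iteratedDeriv k (Rq q) 0 ↔ NoRel (gi : Idx q → ℝ) k) ∧
    ((∀ ε : ℝ, 0 < ε → ∀ᶠ U : ℝ in atTop, MK q k U ≤ iteratedDeriv k (Rq q) 0 + ε) ↔ NoRel (gi : Idx q → ℝ) k) := by
  rw [Rder hGF hTC hG h0]
  obtain ⟨a, b⟩ := hTR (Idx q) gi ci k ci_pos (ci_sm hG)
  refine ⟨a, b, ?_⟩
  rw [← b]
  have hl := lim hMN hG h0 k
  constructor
  · intro h
    refine le_antisymm (le_of_forall_pos_le_add fun ε hε => ?_) a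
    exact le_of_tendsto hl (h ε hε)
  · intro h ε hε
    rw [h] at hl
    filter_upwards [hl.eventually (gt_mem_nhds (show R (ci : Idx q → ℝ) k < R (ci : Idx q → ℝ) k + ε by linarith))]
      with U hU using hU.le

/-- `ζ(1/2) ≠ 0` -/
lemma zeta_half : riemannZeta (1 / 2) ≠ 0 := by
  have := Pool.Agent.Y21.FW.real_ne (x := 1 / 2) (by norm_num) (by norm_num)
  simpa using this

/-- the multiplicities for `q = 1` -/
lemma mt_one (γ : ℝ) : mt 1 γ = analyticOrderNatAt riemannZeta (1 / 2 + (γ : ℂ) * I) := by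
  have e : ∀ χ : DirichletCharacter ℂ 1, mc χ γ = analyticOrderNatAt riemannZeta (1 / 2 + (γ : ℂ) * I) := by
    intro χ
    unfold mc
    rw [DirichletCharacter.LFunction_modOne_eq]
  unfold Pool.Agent.Q253.LQ.mt
  simp_rw [e]
  rw [Finset.sum_const, smul_eq_mul]
  have : (Finset.univ : Finset (DirichletCharacter ℂ 1)).card = 1 := by
    rw [Finset.card_univ, Fintype.card_eq_one_iff]
    exact ⟨1, fun χ => Subsingleton.elim _ _⟩
  rw [this, one_mul]

lemma mt_one_ne (γ : ℝ) : mt 1 γ ≠ 0 ↔ riemannZeta (1 / 2 + (γ : ℂ) * I) = 0 := by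
  rw [mt_ne]
  constructor
  · rintro ⟨χ, h⟩
    rwa [DirichletCharacter.LFunction_modOne_eq] at h
  · intro h
    refine ⟨1, ?_⟩
    rwa [DirichletCharacter.LFunction_modOne_eq]

lemma mt_one_zero : mt 1 0 = 0 := by
  by_contra h
  have := (mt_one_ne 0).1 h
  simp only [Complex.ofReal_zero, zero_mul, add_zero] at this
  exact zeta_half this

lemma mt_one_le (γ : ℝ) (h : riemannZeta (1 / 2 + (γ : ℂ) * I) = 0) :
    mt 1 γ ≤ 1 ↔ deriv riemannZeta (1 / 2 + (γ : ℂ) * I) ≠ 0 := by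
  have h1 := mc_one_iff (1 : DirichletCharacter ℂ 1) (γ := γ) (by rwa [DirichletCharacter.LFunction_modOne_eq])
  have e : mc (1 : DirichletCharacter ℂ 1) γ = mt 1 γ := by
    rw [mt_one]
    unfold mc
    rw [DirichletCharacter.LFunction_modOne_eq]
  rw [e, DirichletCharacter.LFunction_modOne_eq] at h1
  exact h1

lemma grh_one : GRHq 1 ↔ ∀ s : ℂ, 1 / 2 < s.re → s.re < 1 → riemannZeta s ≠ 0 := by
  unfold GRHq GRHc
  constructor
  · intro h s h1 h2
    have := h 1 s h1 h2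
    rwa [DirichletCharacter.LFunction_modOne_eq] at this
  · intro h χ s h1 h2
    rw [DirichletCharacter.LFunction_modOne_eq]
    exact h s h1 h2

end Pool.Agent.Q253.LM
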